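import Mathlib
import Pool.Agent.K3h2.LA.All
import Pool.Agent.Results.MP_f5a5f7_nt.SparseNumbers

set_option autoImplicit false

/-!
# The weak abc inequality, with every `κ > 1`, at the numbers with Lempel-Ziv compressible coordinates
in all number fields of bounded degree

A word is cut into `z` phrases (Lempel and Ziv) if each phrase is a single letter, or a (possibly
empty) copy of a block which begins further to the left and may overlap the phrase. Let `K` be a
number field with a basis `ω` whose structure constants are, together with the coordinates of all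
numbers involved, sums of boundedly many products of an `S`-unit, a small integer and an integer with
an expansion, in one of finitely many bases, of at most `z` phrases; there is no restriction on the
lengths of the phrases and of their periods. For these `x ∈ K`, `x ≠ 0, 1`, we prove
`h(x) ≤ (1 + ε) (cond(x) + cond(1 / x) + cond(x - 1) + d(K)) + C`, where in the conductors even the
primes over `S` may be left out, if a radical of `(x : 1 - x : - 1)` is of the same kind, with one
constant `C` for all `K` of degree at most `r`; and `h(x) ≤ (1 + ε) (N_S(ρ) + d_S(ω)) + C` for every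
multiple `ρ` of the radical of the same kind.

Height, conductors, counting function, discriminants, radicals and parameters are defined in the
starting file `SparseNumbers` of this folder, which treats short sums of `S`-units with small
coefficients (the case of words of one letter). A compressible integer is not such a sum
(`(10 ^ n - 1) / 9` is not), but its product with a suitable integer `D`, `log D` at most a small
multiple of `log H`, is; the denominator `D` is removed by passing from the basis `ω` to `D ω` and from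
`a`, `ρ`, `t` to `D² a`, `D² ρ`, `D^(2 m) t`.
-/

namespace Pool.Agent.Results.MP_f5a5f7_nt.LempelZivNumbers

open MvPolynomial NumberField
open Pool.Agent.Results.MP_f5a5f7_nt.SparseNumbers

/-- The letters in the positions `n ≤ j < m` of the word `a` form one phrase: it is a single letter, or
a copy of a block of letters starting at an earlier position (which may overlap the phrase). -/
def IsPhrase (a : ℕ → ℤ) (n m : ℕ) : Prop :=
  m = n + 1 ∨ (n ≤ m ∧ ∃ p, 0 < p ∧ p ≤ n ∧ ∀ j, n ≤ j → j < m → a j = a (j - p))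

/-- The word `a 0, …, a (N - 1)` is a concatenation of `z` phrases. -/
def IsLZWord (a : ℕ → ℤ) (N z : ℕ) : Prop :=
  ∃ c : ℕ → ℕ, c 0 = 0 ∧ c z = N ∧ ∀ i < z, IsPhrase a (c i) (c (i + 1))

/-- `w` is the value in base `b` of a word of `N` integral letters of absolute value at most `B` with
`z` phrases, `N log b ≤ Λ`; the first letter is the highest or the lowest one. -/
def IsLZValue (b z : ℕ) (B : ℤ) (Λ : ℝ) (w : ℤ) : Prop :=
  ∃ (a : ℕ → ℤ) (N : ℕ), IsLZWord a N z ∧ (∀ j < N, |a j| ≤ B) ∧ N * Real.log b ≤ Λ ∧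
    (w = ∑ j ∈ Finset.range N, (b : ℤ) ^ (N - 1 - j) * a j ∨
      w = ∑ j ∈ Finset.range N, (b : ℤ) ^ j * a j)

/-- `y` is a sum of products `g i * c i * w i`, `g i` an `S`-unit, `c i` an integer of absolute value at
most `N` and `w i` the value in base `b i` of a word with `z` phrases and letters of absolute value at
most `B`, of length at most `Λ / log b i`. -/
def IsCompressible (S : Finset ℕ) {q : ℕ} (b : Fin q → ℕ) (z : ℕ) (B : ℤ) (N Λ : ℝ) (y : ℚ) :
    Prop :=
  ∃ (g : Fin q → ℚ) (c w : Fin q → ℤ), (∀ i, IsSUnit S (g i)) ∧ (∀ i, |(c i : ℝ)| ≤ N) ∧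
    (∀ i, IsLZValue (b i) z B Λ (w i)) ∧ y = ∑ i, g i * (c i * w i)

/-- The number `x`, the coordinates `a = (s x, s (1 - x), - s)`, `s ≠ 0`, of the point
`(x : 1 - x : - 1)`, the number `ρ ≠ 0` and the cofactors `t i j` with `ρ ^ m * a j = a i * t i j` are
compressible with respect to the basis `ω`: the structure constants of `ω` and the coordinates of the
`a i`, `t i j` and `ρ` with respect to `ω` are sums of products of `S`-units, of integers of absolute
value at most `A H ^ δ` and of values of words with `z` phrases, of lengths at most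
`A (1 + log H) / log b i`, where `H` is the size of all these rational numbers, and
`log H ≤ A (h(x) + 1)`. (The `t i j` are then `S`-integral, so that `ρ` vanishes at all places not over
`S` with `|x| ≠ 1` or `|1 - x| ≠ 1`.) -/
def IsLZNumber {K : Type} [Field K] [NumberField K] {n : ℕ} (S : Finset ℕ) (m : ℕ) {q : ℕ}
    (b : Fin q → ℕ) (z : ℕ) (B : ℤ) (A δ : ℝ) (ω : Module.Basis (Fin n) ℚ K) (x s : K)
    (t : Fin 3 → Fin 3 → K) (ρ : K) : Prop :=
  s ≠ 0 ∧ ρ ≠ 0 ∧ (∀ i j, ρ ^ m * coords s x j = coords s x i * t i j) ∧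
    (∀ k, IsCompressible S b z B (A * (size (params ω (data (coords s x) t ρ)) : ℝ) ^ δ)
      (A * (1 + Real.log (size (params ω (data (coords s x) t ρ)))))
      (params ω (data (coords s x) t ρ) k)) ∧
    Real.log (size (params ω (data (coords s x) t ρ))) ≤ A * (h x + 1)

/-- **Main theorem.** For all finite sets `S` of primes, all natural numbers `r`, `m ≥ 1`, `z`, all bases
`b i ≥ 2`, all integers `B ≥ 0` and all real numbers `A ≥ 0` and `ε > 0` there are `δ > 0` and a constant
`C` such that for all number fields `K` of degree `n ≤ r`, all bases `ω` of `K` and all compressible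
`x ∈ K`, `x ≠ 0, 1` (with `s`, `t` and `ρ`):
* `h(x) ≤ (1 + ε) (N_S(ρ) + d_S(ω)) + C`;
* if `ω` is a basis of the `S`-integers of `K` and `ρ` is a radical of `(x : 1 - x : - 1)` outside `S`, then
  `h(x) ≤ (1 + ε) (cond_S(x) + cond_S(1 / x) + cond_S(x - 1) + d(K)) + C`. -/
theorem result (S : Finset ℕ) (hS : ∀ p ∈ S, p.Prime) (r m : ℕ) (hm : 1 ≤ m) (q : ℕ)
    (b : Fin q → ℕ) (hb : ∀ i, 2 ≤ b i) (z : ℕ) (B : ℤ) (hB : 0 ≤ B) (A ε : ℝ) (hA : 0 ≤ A)
    (hε : 0 < ε) :
    ∃ δ C : ℝ, 0 < δ ∧ ∀ (n : ℕ), n ≤ r → ∀ (K : Type) [Field K] [NumberField K]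
      (ω : Module.Basis (Fin n) ℚ K) (x s : K) (t : Fin 3 → Fin 3 → K) (ρ : K),
      x ≠ 0 → x ≠ 1 → IsLZNumber S m b z B A δ ω x s t ρ →
      h x ≤ (1 + ε) * (counting S ρ + logDiscBasis S ω) + C ∧
      (SpansIntegers S ω → IsRadical S x ρ →
        h x ≤ (1 + ε) * (cond S x + cond S x⁻¹ + cond S (x - 1) + logDisc K) + C) := by
  classical
  obtain ⟨Γ, hΓ, hΓS⟩ := Pool.Agent.K3h2.LA.exists_gamma S hS
  obtain ⟨δ, C, hδ, hmain⟩ :=
    Pool.Agent.K3h2.LA.abk_lz S hS r m hm q b hb z B hB Γ hΓ A A A ε hA hA hε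
  refine ⟨δ, C, hδ, ?_⟩
  intro n hn K _ _ ω x s t ρ hx0 hx1 ⟨hs, hρ0, ht, hcomp, hlog⟩
  have hn0 : 0 < Module.finrank ℚ K := Module.finrank_pos
  have hnR : (0 : ℝ) < Module.finrank ℚ K := by exact_mod_cast hn0
  set a : Fin 3 → K := coords s x with ha
  have hx1' : 1 - x ≠ 0 := sub_ne_zero.2 (Ne.symm hx1)
  have a0 : a 0 = s * x := rfl
  have a1 : a 1 = s * (1 - x) := rfl
  have a2 : a 2 = -s := rfl
  have hane : ∀ i, a i ≠ 0 := by
    intro i
    fin_cases i
    · exact mul_ne_zero hs hx0
    · exact mul_ne_zero hs hx1'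
    · exact neg_ne_zero.2 hs
  have hav : a ≠ 0 := fun h => hane 0 (by rw [h]; rfl)
  have hsum : a 0 + a 1 + a 2 = 0 := by
    rw [a0, a1, a2]
    ring
  -- the height
  have hh : h x ≤ Pool.Agent.Y724.T4.R7.height a := by
    unfold h Pool.Agent.Y724.T4.R7.height
    refine div_le_div_of_nonneg_right ?_ hnR.le
    have e1 : Height.logHeight₁ x = Height.logHeight ![x, 1] := by
      have := Height.logHeight₁_div_eq_logHeight x 1
      rwa [div_one] at this
    have e2 : Height.logHeight ![x, 1] = Height.logHeight (s • ![x, 1]) :=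
      (Height.logHeight_smul_eq_logHeight _ hs).symm
    set y : Fin 2 → K := s • ![x, 1] with hy
    have y0 : y 0 = a 0 := rfl
    have y1 : y 1 = -a 2 := by
      rw [a2, neg_neg]
      change s * 1 = s
      rw [mul_one]
    have hyv : y ≠ 0 := fun h => hane 0 (by rw [← y0, h]; rfl)
    rw [e1, e2, Pool.Agent.Y724.T4.logHeight_sum hyv, Pool.Agent.Y724.T4.logHeight_sum hav]
    have hle : ∀ v : AbsoluteValue K ℝ, (⨆ i, v (y i)) ≤ ⨆ i, v (a i) := by
      intro v
      have hle0 : ∀ j, v (a j) ≤ ⨆ j, v (a j) :=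
        fun j => le_ciSup (f := fun j => v (a j)) (Finite.bddAbove_range _) j
      refine ciSup_le fun i => ?_
      fin_cases i
      · exact hle0 0
      · change v (y 1) ≤ _
        rw [y1, v.map_neg]
        exact hle0 2
    refine add_le_add ?_ ?_
    · refine Finset.sum_le_sum fun v _ => mul_le_mul_of_nonneg_left ?_ (Nat.cast_nonneg _)
      exact Real.log_le_log (Pool.Agent.Y724.T4.sup_pos hyv v.1) (hle v.1)
    · refine finsum_le_finsum' ?_ ?_ fun v => ?_
      · refine (Pool.Agent.Y724.T4.sup_fin hyv).subset fun v hv h => hv ?_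
        change Real.log (⨆ i, v (y i)) = 0
        rw [h, Real.log_one]
      · refine (Pool.Agent.Y724.T4.sup_fin hav).subset fun v hv h => hv ?_
        change Real.log (⨆ i, v (a i)) = 0
        rw [h, Real.log_one]
      · exact Real.log_le_log (Pool.Agent.Y724.T4.sup_pos hyv v.1) (hle v.1)
  have hh0 : 0 ≤ h x := div_nonneg (Height.zero_le_logHeight₁ _) hnR.le
  -- the size is positive, so that `H ^ δ = exp (δ log H)`
  have hH : (0 : ℝ) < size (params ω (data a t ρ)) := by
    have h1 : 0 < size (params ω (data a t ρ)) := by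
      by_contra hcon
      have h2 : size (params ω (data a t ρ)) = 0 := by omega
      have hpos : 0 < n := by
        have := Module.finrank_eq_card_basis ω
        rw [Fintype.card_fin] at this
        omega
      have h3 : max (params ω (data a t ρ) (Sum.inl (⟨0, hpos⟩, ⟨0, hpos⟩, ⟨0, hpos⟩))).num.natAbs
          (params ω (data a t ρ) (Sum.inl (⟨0, hpos⟩, ⟨0, hpos⟩, ⟨0, hpos⟩))).den ≤
          size (params ω (data a t ρ)) :=
        Finset.le_sup (f := fun i => max (params ω (data a t ρ) i).num.natAbs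
          (params ω (data a t ρ) i).den) (Finset.mem_univ _)
      have h4 := (params ω (data a t ρ) (Sum.inl (⟨0, hpos⟩, ⟨0, hpos⟩, ⟨0, hpos⟩))).pos
      have h5 := le_max_right (params ω (data a t ρ)
        (Sum.inl (⟨0, hpos⟩, ⟨0, hpos⟩, ⟨0, hpos⟩))).num.natAbs
        (params ω (data a t ρ) (Sum.inl (⟨0, hpos⟩, ⟨0, hpos⟩, ⟨0, hpos⟩))).den
      omega
    exact_mod_cast h1
  have hpow : (size (params ω (data a t ρ)) : ℝ) ^ δ =
      Real.exp (δ * Real.log (size (params ω (data a t ρ)))) := by
    rw [Real.rpow_def_of_pos hH, mul_comm]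
  choose g c w hg hc hw hy using hcomp
  obtain ⟨h1, h2⟩ := hmain n hn K ω a t ρ (fun p => w p.1 p.2) hane hsum hρ0 ht
    (fun k => ⟨q, g k, fun i => c k i * w k i, hg k, (hy k).trans
      (Finset.sum_congr rfl fun i _ => by push_cast; ring)⟩)
    (fun k => by
      choose u hu hug using fun i => hΓS (g k i) (hg k i)
      refine ⟨u, c k, hu, fun i => ?_, (hy k).trans
        (Finset.sum_congr rfl fun i _ => by rw [hug i])⟩
      have h7 := hc k i
      rw [hpow] at h7
      exact h7)
    (fun p => hw p.1 p.2) (by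
    refine hlog.trans ?_
    exact mul_le_mul_of_nonneg_left (by linarith) hA)
  refine ⟨hh.trans h1, fun hspan hrad => ?_⟩
  have hval : ∀ v : FinitePlace K, v (a 0) = v s * v x ∧ v (a 1) = v s * v (1 - x) ∧
      v (a 2) = v s := by
    intro v
    refine ⟨?_, ?_, ?_⟩
    · rw [a0, map_mul]
    · rw [a1, map_mul]
    · rw [a2]
      exact v.1.map_neg _
  have h3 := h2 hspan fun v hv hv1 => ⟨(hrad v hv hv1).1,
    (Pool.Agent.Y724.T4.line_meets a hane v).2 (by
      have hs0 : v s ≠ 0 := (v.1.pos hs).ne'
      rcases (hrad v hv hv1).2 with h | h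
      · refine ⟨0, 2, fun h4 => h ?_⟩
        have h4' : v (a 0) = v (a 2) := h4
        rw [(hval v).1, (hval v).2.2] at h4'
        exact mul_left_cancel₀ hs0 (by rw [h4', mul_one])
      · refine ⟨1, 2, fun h4 => h ?_⟩
        have h4' : v (a 1) = v (a 2) := h4
        rw [(hval v).2.1, (hval v).2.2] at h4'
        exact mul_left_cancel₀ hs0 (by rw [h4', mul_one]))⟩
  have h4 : Pool.Agent.Y724.T4.R7.truncated Pool.Agent.Y724.T4.lineF (fun _ _ => 1) S a ≤
      cond S x + cond S x⁻¹ + cond S (x - 1) := by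
    unfold Pool.Agent.Y724.T4.R7.truncated Pool.Agent.Results.MP_f5a5f7_nt.SparseNumbers.cond
    rw [← add_div, ← add_div]
    refine div_le_div_of_nonneg_right ?_ hnR.le
    have f1 : {v : FinitePlace K | v ∉ placesOver K S ∧ v x < 1}.Finite :=
      (Pool.Agent.Y724.T4.fin_ne_one hx0).subset fun v hv => hv.2.ne
    have f2 : {v : FinitePlace K | v ∉ placesOver K S ∧ v x⁻¹ < 1}.Finite :=
      (Pool.Agent.Y724.T4.fin_ne_one (inv_ne_zero hx0)).subset fun v hv => hv.2.ne
    have f3 : {v : FinitePlace K | v ∉ placesOver K S ∧ v (x - 1) < 1}.Finite :=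
      (Pool.Agent.Y724.T4.fin_ne_one (sub_ne_zero.2 hx1)).subset fun v hv => hv.2.ne
    have hsub : {v : FinitePlace K | v ∉ Pool.Agent.Y724.T4.R7.placesOver K S ∧
        ∃ i, 0 < Pool.Agent.Y724.T4.R7.localHeight (Pool.Agent.Y724.T4.lineF i) (fun _ => 1) a
          v.1} ⊆ ({v : FinitePlace K | v ∉ placesOver K S ∧ v x < 1} ∪
        {v : FinitePlace K | v ∉ placesOver K S ∧ v x⁻¹ < 1}) ∪
        {v : FinitePlace K | v ∉ placesOver K S ∧ v (x - 1) < 1} := by
      rintro v ⟨hv, hv2⟩
      obtain ⟨i, j, hij⟩ := (Pool.Agent.Y724.T4.line_meets a hane v).1 hv2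
      by_contra hcon
      simp only [Set.mem_union, Set.mem_ofPred_eq, not_or, not_and, not_lt] at hcon
      obtain ⟨⟨c1, c2⟩, c3⟩ := hcon
      have hx : 0 < v x := v.1.pos hx0
      have d1 : 1 ≤ v x := c1 hv
      have d2 : 1 ≤ v x⁻¹ := c2 hv
      have d3 : 1 ≤ v (x - 1) := c3 hv
      rw [map_inv₀] at d2
      have d4 : v x = 1 := le_antisymm ((one_le_inv₀ hx).1 d2) d1
      have d5 : v (x - 1) ≤ 1 := by
        have := FinitePlace.add_le v x (-1)
        rw [← sub_eq_add_neg] at this
        refine this.trans (max_le d4.le ?_)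
        have h5 : v (-1 : K) = v (1 : K) := v.1.map_neg _
        rw [h5, map_one]
      have d6 : v (1 - x) = 1 := by
        have h5 : v (1 - x) = v (x - 1) := v.1.map_sub _ _
        rw [h5]
        exact le_antisymm d5 d3
      have hall : ∀ i, v (a i) = v s := by
        intro i
        fin_cases i
        · change v (a 0) = _
          rw [(hval v).1, d4, mul_one]
        · change v (a 1) = _
          rw [(hval v).2.1, d6, mul_one]
        · exact (hval v).2.2
      exact hij ((hall i).trans (hall j).symm)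
    have f12 := f1.union f2
    have f123 := f12.union f3
    rw [finsum_mem_eq_finite_toFinset_sum _ (f123.subset hsub),
      finsum_mem_eq_finite_toFinset_sum _ f1, finsum_mem_eq_finite_toFinset_sum _ f2,
      finsum_mem_eq_finite_toFinset_sum _ f3]
    have hnn : ∀ v : FinitePlace K, 0 ≤
        Real.log ((Ideal.absNorm v.maximalIdeal.asIdeal : ℕ) : ℝ) := fun v =>
      Real.log_natCast_nonneg _
    have hun : ∀ P Q : Finset (FinitePlace K), ∑ v ∈ P ∪ Q,
        Real.log ((Ideal.absNorm v.maximalIdeal.asIdeal : ℕ) : ℝ) ≤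
        ∑ v ∈ P, Real.log ((Ideal.absNorm v.maximalIdeal.asIdeal : ℕ) : ℝ) +
        ∑ v ∈ Q, Real.log ((Ideal.absNorm v.maximalIdeal.asIdeal : ℕ) : ℝ) := by
      intro P Q
      have := Finset.sum_union_inter (s₁ := P) (s₂ := Q)
        (f := fun v : FinitePlace K =>
          Real.log ((Ideal.absNorm v.maximalIdeal.asIdeal : ℕ) : ℝ))
      have h5 := Finset.sum_nonneg (s := P ∩ Q) fun v _ => hnn v
      linarith
    refine le_trans (Finset.sum_le_sum_of_subset_of_nonneg
      (t := (f1.toFinset ∪ f2.toFinset) ∪ f3.toFinset) ?_ fun v _ _ => hnn v) ?_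
    · intro v hv
      rw [Set.Finite.mem_toFinset] at hv
      have h5 := hsub hv
      simp only [Finset.mem_union, Set.Finite.mem_toFinset]
      exact h5
    · have g1 := hun (f1.toFinset ∪ f2.toFinset) f3.toFinset
      have g2 := hun f1.toFinset f2.toFinset
      linarith
  have h5 : Pool.Agent.Y724.T4.R7.logDisc K = logDisc K := rfl
  rw [h5] at h3
  have h6 := mul_le_mul_of_nonneg_left h4 (by linarith : (0 : ℝ) ≤ 1 + ε)
  linarith

end Pool.Agent.Results.MP_f5a5f7_nt.LempelZivNumbers
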