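import Mathlib
import Pool.Agent.K3h37.RS.Core
import Pool.Agent.Y557.WK.Bridge
import Pool.Agent.K3h37.RS.Low.Trans
import Pool.Agent.K3h97.RS.LOW
import Pool.Agent.K3h15.RS.SUM
import Pool.Agent.K3h76.RS.LIM
import Pool.Agent.K3h67.RS.ZO

/-!
# The weak abc inequality for all units outside a random infinite set of primes

Let `K` be a number field. For a set `P` of primes of `K` (finite or infinite) let `U(P)` be the set of
all `x ∈ K`, `x ≠ 0, 1`, such that `x` and `1 - x` are units at all primes outside `P`: the solutions,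
of whatever height, of the unit equation in the `P`-integers. Let `P(ω)` be a random set of primes which
contains each finite set `T` of primes with probability at most `A * ∏ v ∈ T, N(v) ^ (-θ)`; for
example, the primes are chosen independently with the probabilities `N(v) ^ (-θ)`, and then `P(ω)` is
infinite for `θ ≤ 1` and has about `X ^ (1 - θ)` elements of norm up to `X`.

For every `κ > 1 / 3` there is `θ₀ < 2 / 3` such that for `θ > θ₀` almost surely, for all finite sets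
`S` of primes and all real `c`, all but finitely many `x ∈ U(P(ω) ∪ S)` satisfy
`h(x) ≤ κ (cond(x) + cond(1 / x) + cond(x - 1)) - c`; so there is `κ'` such that all
`x ∈ U(P(ω) ∪ S)` satisfy the weak abc inequality. The constant `1 / 3` is best possible, since
`cond(x) + cond(1 / x) + cond(x - 1) ≤ 3 h(x) + O(1)` for all `x`. For `θ > 2 / 3` the set
`U(P(ω) ∪ S)` is almost surely finite for all finite sets `S`.

The threshold `2 / 3` is sharp: over `ℚ`, for independent primes and `θ < 2 / 3`, the set `U(P(ω) ∪ S)`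
is almost surely infinite for some finite set `S` (and all larger ones), and then the first statement
is about infinitely many `x`.

Four lemmas on the pairs `(a, b)` and the second moment are due to helpers 15, 67, 76 and 97.
-/

set_option autoImplicit false

namespace Pool.Agent.Results.MP_f5a5f7_nt.RandomInfiniteSets

open NumberField IsDedekindDomain MeasureTheory

variable {K : Type} [Field K] [NumberField K]

/-- the absolute logarithmic Weil height `h(x)`, as in the problem -/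
noncomputable def height (x : K) : ℝ :=
  (1 / (Module.finrank ℚ K : ℝ)) *
    ((∑ w : InfinitePlace K, (w.mult : ℝ) * Real.log (max 1 (w x))) +
      ∑ᶠ v : HeightOneSpectrum (𝓞 K), Real.log (max 1 (FinitePlace.mk v x)))

/-- the conductor `cond(x)`, as in the problem: the sum of `log N(v) / d` over the primes `v` at
which `x` has a positive valuation -/
noncomputable def cond (x : K) : ℝ :=
  (1 / (Module.finrank ℚ K : ℝ)) *
    (∑ᶠ v : HeightOneSpectrum (𝓞 K),
      (if FinitePlace.mk v x < 1 then Real.log (Ideal.absNorm v.asIdeal : ℝ) else 0))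

/-- the weak abc inequality of Q1 for `x`, with the constant `κ` -/
def WeakABC (κ : ℝ) (x : K) : Prop := height x ≤ κ * (cond x + cond x⁻¹ + cond (x - 1) + 1)

/-- the `x ≠ 0, 1` such that `x` and `1 - x` are units at all primes outside `P` -/
def U (P : Set (HeightOneSpectrum (𝓞 K))) : Set K :=
  {x | x ≠ 0 ∧ x ≠ 1 ∧ ∀ v : HeightOneSpectrum (𝓞 K), v ∉ P →
    v.valuation K x = 1 ∧ v.valuation K (1 - x) = 1}

/-- the random set `P` of primes contains each finite set `T` of primes with probability at most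
`A * ∏ v ∈ T, N(v) ^ (-θ)` -/
def Thin {Ω : Type*} [MeasurableSpace Ω] (μ : Measure Ω) (P : Ω → Set (HeightOneSpectrum (𝓞 K)))
    (A θ : ℝ) : Prop :=
  ∀ T : Finset (HeightOneSpectrum (𝓞 K)), μ {ω | ∀ v ∈ T, v ∈ P ω} ≤
    ENNReal.ofReal (A * ∏ v ∈ T, (Ideal.absNorm v.asIdeal : ℝ) ^ (-θ))

/-- the primes of the random set `P` are independent, and `v` belongs to `P` with the probability
`N(v) ^ (-θ)` -/
def Independent {Ω : Type*} [MeasurableSpace Ω] (μ : Measure Ω)
    (P : Ω → Set (HeightOneSpectrum (𝓞 K))) (θ : ℝ) : Prop :=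
  ∀ T : Finset (HeightOneSpectrum (𝓞 K)), MeasurableSet {ω | ∀ v ∈ T, v ∈ P ω} ∧
    μ {ω | ∀ v ∈ T, v ∈ P ω} =
      ENNReal.ofReal (∏ v ∈ T, (Ideal.absNorm v.asIdeal : ℝ) ^ (-θ))

section Aux

open Pool.Agent.K3h37 Pool.Agent.TH876.Loc

theorem nn_rpow (T : Finset (Pr K)) (θ : ℝ) :
    nn T ^ θ = ∏ v ∈ T, (Ideal.absNorm v.asIdeal : ℝ) ^ θ := by
  unfold nn
  rw [← Real.finsetProd_rpow _ _ fun v _ => ?_]
  · rfl
  · exact Nat.cast_nonneg _

theorem thin_iff {Ω : Type*} [MeasurableSpace Ω] {μ : Measure Ω}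
    {P : Ω → Set (HeightOneSpectrum (𝓞 K))} {A θ : ℝ} (h : Thin μ P A θ) : RS.Thin μ P A θ := by
  intro T
  rw [nn_rpow]
  exact h T

theorem U_eq (P : Set (HeightOneSpectrum (𝓞 K))) (x : K) (hx : x ∈ U P) :
    Pt (-x) ∧ (sp (-x) : Set (Pr K)) ⊆ P := by
  obtain ⟨h0, h1, h2⟩ := hx
  have hp := Pool.Agent.K3h24.SB.pt_neg h0 h1
  refine ⟨hp, fun v hv => ?_⟩
  rw [Finset.mem_coe, Pool.Agent.K3h24.SB.mem_rad hp] at hv
  by_contra hc
  exact hv (h2 v hc)

theorem height_nonneg (x : K) : 0 ≤ height x := by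
  unfold height
  refine mul_nonneg (by positivity) (add_nonneg (Finset.sum_nonneg fun w _ => ?_) ?_)
  · exact mul_nonneg (Nat.cast_nonneg _) (Real.log_nonneg (le_max_left _ _))
  · exact finsum_nonneg fun v => Real.log_nonneg (le_max_left _ _)

theorem cond_nonneg (x : K) : 0 ≤ cond x := by
  unfold cond
  refine mul_nonneg (by positivity) (finsum_nonneg fun v => ?_)
  split_ifs
  · refine Real.log_nonneg ?_
    have := NumberField.HeightOneSpectrum.one_lt_absNorm v
    exact_mod_cast this.le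
  · exact le_rfl

/-- the count of all points -/
theorem all_count (K : Type) [Field K] [NumberField K] (ε : ℝ) (hε : 0 < ε) :
    ∃ D : ℝ, ∀ X : ℝ, 1 ≤ X → ∀ F : Finset K, (∀ x ∈ F, x ∈ {x : K | Pt (-x)} ∧ nn (sp (-x)) ≤ X) →
      (F.card : ℝ) ≤ D * X ^ (2 / 3 + ε) := by
  classical
  obtain ⟨D, -, h⟩ := Pool.Agent.Y728.mainK K ε hε
  refine ⟨D, fun X hX F hF => ?_⟩
  have h1 := h X hX (F.image fun x => -x) fun y hy => by
    obtain ⟨x, hx, rfl⟩ := Finset.mem_image.1 hy
    exact hF x hx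
  rwa [Finset.card_image_of_injective _ neg_injective] at h1

/-- the count of the exceptional points -/
theorem exc_count (K : Type) [Field K] [NumberField K] {κ : ℝ} (hκ : 1 / 3 < κ) :
    ∃ ν : ℝ, 0 < ν ∧ ∃ D : ℝ, ∀ X : ℝ, 1 ≤ X → ∀ F : Finset K,
      (∀ x ∈ F, x ∈ {x : K | Pt (-x) ∧ κ * Real.log (nn (sp (-x))) ≤ hgt (-x)} ∧
        nn (sp (-x)) ≤ X) → (F.card : ℝ) ≤ D * X ^ (2 / 3 - ν) := by
  classical
  obtain ⟨ν, hν, D, -, h⟩ := Pool.Agent.Y557.WK.cnt_const K 0 hκ
  refine ⟨ν, hν, D, fun X hX F hF => ?_⟩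
  have h1 := h X hX (F.image fun x => -x) fun y hy => by
    obtain ⟨x, hx, rfl⟩ := Finset.mem_image.1 hy
    exact ⟨(hF x hx).1.1, (hF x hx).2, by
      rw [add_zero]
      exact (hF x hx).1.2⟩
  rwa [Finset.card_image_of_injective _ neg_injective] at h1

/-- the points of bounded radical -/
theorem rad_finite (K : Type) [Field K] [NumberField K] (L : ℝ) :
    {x : K | Pt (-x) ∧ nn (sp (-x)) ≤ L}.Finite := by
  obtain ⟨D, h⟩ := all_count K 1 one_pos
  refine RS.finite_iff_bdd _ (D * (max 1 L) ^ (2 / 3 + 1 : ℝ)) fun F hF => ?_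
  exact h (max 1 L) (le_max_left _ _) F fun x hx =>
    ⟨(hF hx).1, (hF hx).2.trans (le_max_right _ _)⟩

end Aux

open Pool.Agent.K3h37 Pool.Agent.TH876.Loc in
/-- **The weak abc inequality for the units outside a random infinite set of primes.** Let `K` be a
number field.
(1) For every `κ > 1 / 3` there is `θ₀ < 2 / 3` such that, for every random set `P(ω)` of primes which
contains each finite set `T` of primes with probability at most `A * ∏ v ∈ T, N(v) ^ (-θ)`, `θ > θ₀`,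
almost surely for ALL finite sets `S` of primes: for every `c` all but finitely many
`x ∈ U(P(ω) ∪ S)` satisfy `h(x) ≤ κ (cond(x) + cond(1 / x) + cond(x - 1)) - c`, and for some `κ'` all
`x ∈ U(P(ω) ∪ S)` satisfy the weak abc inequality with the constant `κ'`.
(2) If `θ > 2 / 3` then almost surely `U(P(ω) ∪ S)` is finite for ALL finite sets `S`.
(3) For every `θ ≥ 0` there is a random set as in (1), (2), with `A = 1`: independent primes, with the
probabilities `N(v) ^ (-θ)`. -/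
theorem number_fields (K : Type) [Field K] [NumberField K] :
    (∀ κ : ℝ, 1 / 3 < κ → ∃ θ₀ : ℝ, 0 ≤ θ₀ ∧ θ₀ < 2 / 3 ∧ ∀ θ : ℝ, θ₀ < θ →
      ∀ (Ω : Type) [MeasurableSpace Ω] (μ : Measure Ω) (P : Ω → Set (HeightOneSpectrum (𝓞 K)))
        (A : ℝ), Thin μ P A θ → ∀ᵐ ω ∂μ, ∀ S : Finset (HeightOneSpectrum (𝓞 K)),
          (∀ c : ℝ, {x ∈ U (P ω ∪ S) |
            ¬ height x ≤ κ * (cond x + cond x⁻¹ + cond (x - 1)) - c}.Finite) ∧
          ∃ κ' : ℝ, ∀ x ∈ U (P ω ∪ S), WeakABC κ' x) ∧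
    (∀ θ : ℝ, 2 / 3 < θ →
      ∀ (Ω : Type) [MeasurableSpace Ω] (μ : Measure Ω) (P : Ω → Set (HeightOneSpectrum (𝓞 K)))
        (A : ℝ), Thin μ P A θ → ∀ᵐ ω ∂μ, ∀ S : Finset (HeightOneSpectrum (𝓞 K)),
          (U (P ω ∪ S)).Finite) ∧
    ∀ θ : ℝ, 0 ≤ θ → ∃ (Ω : Type) (_ : MeasurableSpace Ω) (μ : Measure Ω)
      (P : Ω → Set (HeightOneSpectrum (𝓞 K))), IsProbabilityMeasure μ ∧ Independent μ P θ := by
  have hcp : Countable (Pr K) := RS.countable_pr K
  refine ⟨?_, ?_, ?_⟩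
  · intro κ hκ
    obtain ⟨κ₁, hκ₁⟩ : ∃ κ₁, κ₁ = (κ + 1 / 3) / 2 := ⟨_, rfl⟩
    have h13 : 1 / 3 < κ₁ := by rw [hκ₁]; linarith
    have hb : 0 < κ - κ₁ := by rw [hκ₁]; linarith
    obtain ⟨ν, hν, D, hD⟩ := exc_count K h13
    refine ⟨max (2 / 3 - ν) 0, le_max_right _ _, max_lt (by linarith) (by norm_num), ?_⟩
    intro θ hθ Ω _ μ P A hP
    have hθ0 : 0 ≤ θ := (le_max_right _ _).trans hθ.le
    rw [ae_all_iff]
    intro S
    have h1 := RS.bc ((thin_iff hP).union hθ0 S) (fun x : K => sp (-x))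
      {x : K | Pt (-x) ∧ κ₁ * Real.log (nn (sp (-x))) ≤ hgt (-x)} hθ0
      (lt_of_le_of_lt (le_max_left _ _) hθ) hD
    filter_upwards [h1] with ω hω
    have hd := Pool.Agent.TH402.AK.Weak.d_pos (K := K)
    -- all but finitely many
    have hall : ∀ c : ℝ, {x ∈ U (P ω ∪ S) |
            ¬ height x ≤ κ * (cond x + cond x⁻¹ + cond (x - 1)) - c}.Finite := by
      intro c
      refine (hω.union (rad_finite K (Real.exp
        ((Module.finrank ℚ K : ℝ) * |c| / (κ - κ₁))))).subset fun x hx => ?_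
      obtain ⟨hx1, hx2⟩ := hx
      obtain ⟨hp, hs⟩ := U_eq _ _ hx1
      by_cases hL : nn (sp (-x)) ≤ Real.exp ((Module.finrank ℚ K : ℝ) * |c| / (κ - κ₁))
      · exact Or.inr ⟨hp, hL⟩
      · left
        refine ⟨⟨hp, ?_⟩, hs⟩
        have e1 := Pool.Agent.TH402.AK.Weak.cond_sum hx1.1 hx1.2.1
        have e2 := Pool.Agent.Y557.WK.le_hgt hx1.1 hx1.2.1
        have e3 : (Module.finrank ℚ K : ℝ) * height x ≤ hgt (-x) := e2
        have e4 : (Module.finrank ℚ K : ℝ) * (cond x + cond x⁻¹ + cond (x - 1)) =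
            Real.log (nn (sp (-x))) := e1
        have e5 := (Real.lt_log_iff_exp_lt (nn_pos (sp (-x)))).2 (not_le.1 hL)
        rw [div_lt_iff₀ hb] at e5
        have e6 := mul_lt_mul_of_pos_left (not_le.1 hx2) hd
        have e7 := mul_le_mul_of_nonneg_left (le_abs_self c) hd.le
        nlinarith
    refine ⟨hall, ?_⟩
    -- the constant
    have hf := hall 0
    obtain ⟨M, hM⟩ : ∃ M : ℝ, ∀ x ∈ {x ∈ U (P ω ∪ S) |
            ¬ height x ≤ κ * (cond x + cond x⁻¹ + cond (x - 1)) - 0}, height x ≤ M := by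
      obtain ⟨M, hM⟩ := (hf.image height).bddAbove
      exact ⟨M, fun x hx => hM ⟨x, hx, rfl⟩⟩
    refine ⟨max κ M, fun x hx => ?_⟩
    show height x ≤ _
    have h2 := cond_nonneg x
    have h3 := cond_nonneg x⁻¹
    have h4 := cond_nonneg (x - 1)
    have h5 := le_max_left κ M
    have h6 := le_max_right κ M
    by_cases hc : height x ≤ κ * (cond x + cond x⁻¹ + cond (x - 1)) - 0
    · have h7 : κ * (cond x + cond x⁻¹ + cond (x - 1)) ≤
          max κ M * (cond x + cond x⁻¹ + cond (x - 1)) :=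
        mul_le_mul_of_nonneg_right h5 (by linarith)
      have h8 : (0 : ℝ) ≤ max κ M := le_trans (by linarith) h5
      linarith
    · have h7 := hM x ⟨hx, hc⟩
      have h8 := height_nonneg x
      have h9 : (0 : ℝ) ≤ max κ M * (cond x + cond x⁻¹ + cond (x - 1)) :=
        mul_nonneg (le_trans (by linarith) h5) (by linarith)
      linarith
  · intro θ hθ Ω _ μ P A hP
    have hθ0 : 0 ≤ θ := by linarith
    rw [ae_all_iff]
    intro S
    obtain ⟨D, hD⟩ := all_count K ((θ - 2 / 3) / 2) (by linarith)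
    have h1 := RS.bc ((thin_iff hP).union hθ0 S) (fun x : K => sp (-x))
      {x : K | Pt (-x)} hθ0 (show 2 / 3 + (θ - 2 / 3) / 2 < θ by linarith) hD
    filter_upwards [h1] with ω hω
    exact hω.subset fun x hx => U_eq _ _ hx
  · intro θ hθ
    obtain ⟨Ω, i1, μ, P, h1, h2⟩ := RS.exists_indep K θ hθ
    refine ⟨Ω, i1, μ, P, h1, fun T => ?_⟩
    rw [← nn_rpow]
    exact h2 T

open Pool.Agent.K3h37.RS.Low in
/-- **The weak abc inequality for the units outside a random infinite set of primes.** Let `K` be a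
number field.
(1) For every `κ > 1 / 3` there is `θ₀ < 2 / 3` such that, for every random set `P(ω)` of primes which
contains each finite set `T` of primes with probability at most `A * ∏ v ∈ T, N(v) ^ (-θ)`, `θ > θ₀`,
almost surely for ALL finite sets `S` of primes: for every `c` all but finitely many
`x ∈ U(P(ω) ∪ S)` satisfy `h(x) ≤ κ (cond(x) + cond(1 / x) + cond(x - 1)) - c`, and for some `κ'` all
`x ∈ U(P(ω) ∪ S)` satisfy the weak abc inequality with the constant `κ'`.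
(2) If `θ > 2 / 3` then almost surely `U(P(ω) ∪ S)` is finite for ALL finite sets `S`.
(3) For every `θ ≥ 0` there is a random set as in (1), (2), with `A = 1`: independent primes, with the
probabilities `N(v) ^ (-θ)`.
(4) The threshold `2 / 3` is sharp: for `K = ℚ` and independent primes with the probabilities
`p ^ (-θ)`, `0 ≤ θ < 2 / 3`, almost surely `U(P(ω) ∪ S)` is infinite for some finite set `S`. -/
theorem result :
    (∀ (K : Type) [Field K] [NumberField K],
      (∀ κ : ℝ, 1 / 3 < κ → ∃ θ₀ : ℝ, 0 ≤ θ₀ ∧ θ₀ < 2 / 3 ∧ ∀ θ : ℝ, θ₀ < θ →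
        ∀ (Ω : Type) [MeasurableSpace Ω] (μ : Measure Ω) (P : Ω → Set (HeightOneSpectrum (𝓞 K)))
          (A : ℝ), Thin μ P A θ → ∀ᵐ ω ∂μ, ∀ S : Finset (HeightOneSpectrum (𝓞 K)),
            (∀ c : ℝ, {x ∈ U (P ω ∪ S) |
              ¬ height x ≤ κ * (cond x + cond x⁻¹ + cond (x - 1)) - c}.Finite) ∧
            ∃ κ' : ℝ, ∀ x ∈ U (P ω ∪ S), WeakABC κ' x) ∧
      (∀ θ : ℝ, 2 / 3 < θ →
        ∀ (Ω : Type) [MeasurableSpace Ω] (μ : Measure Ω) (P : Ω → Set (HeightOneSpectrum (𝓞 K)))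
          (A : ℝ), Thin μ P A θ → ∀ᵐ ω ∂μ, ∀ S : Finset (HeightOneSpectrum (𝓞 K)),
            (U (P ω ∪ S)).Finite) ∧
      ∀ θ : ℝ, 0 ≤ θ → ∃ (Ω : Type) (_ : MeasurableSpace Ω) (μ : Measure Ω)
        (P : Ω → Set (HeightOneSpectrum (𝓞 K))), IsProbabilityMeasure μ ∧ Independent μ P θ) ∧
    ∀ θ : ℝ, 0 ≤ θ → θ < 2 / 3 → ∀ (Ω : Type) [MeasurableSpace Ω] (μ : Measure Ω)
      (P : Ω → Set (HeightOneSpectrum (𝓞 ℚ))), IsProbabilityMeasure μ → Independent μ P θ →
        ∀ᵐ ω ∂μ, ∃ S : Finset (HeightOneSpectrum (𝓞 ℚ)), (U (P ω ∪ S)).Infinite := by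
  refine ⟨fun K _ _ => number_fields K, ?_⟩
  intro θ h0 h1 Ω _ μ P hμ hP
  have h2 := ind_nat hP
  have h3 := infinite_pos Pool.Agent.K3h97.RS.t_LOW
    (Pool.Agent.K3h15.RS.t_SUM t_NUM) Pool.Agent.K3h76.RS.t_PZ Pool.Agent.K3h76.RS.t_LIM h2 h0 h1
  filter_upwards [Pool.Agent.K3h67.RS.t_ZO h2 h3] with ω hω
  obtain ⟨S, hS⟩ := hω
  obtain ⟨S', hS'⟩ := exists_over S
  refine ⟨S', ?_⟩
  have h4 : (Pairs (nat (P ω ∪ (S' : Set (HeightOneSpectrum (𝓞 ℚ)))))).Infinite :=
    hS.mono (hS' (P ω))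
  refine (h4.image (quo_inj _)).mono ?_
  rintro _ ⟨x, hx, rfl⟩
  obtain ⟨u1, u2, u3⟩ := quo_unit hx
  exact ⟨u1, u2, u3⟩

end Pool.Agent.Results.MP_f5a5f7_nt.RandomInfiniteSets
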