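import Mathlib
import Pool.Agent.K3h24.SB.Law

/-!
# The weak abc inequality for all solutions of the unit equation outside a random ideal

Let `K` be a number field. For a nonzero ideal `I` of the ring of integers let `U(I)` be the set of
all `x ∈ K`, `x ≠ 0, 1`, such that `x` and `1 - x` are units at all primes which do not divide `I`:
the solutions of the unit equation in the ring `𝓞_K[1 / I]`, of whatever height. The ideals are
ordered by their norms.

Let `D(κ)` be the density of the ideals `I` such that the weak abc inequality with the constant `κ`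
holds for ALL `x ∈ U(I)`. It is shown that this density exists, that it tends to one as `κ → ∞`, and
that the weak abc conjecture for `K` with the constant `κ` is equivalent to `D(κ) = 1`. Moreover the
heights of all elements of `U(I)` are bounded uniformly up to a small share of the ideals: the density
`H(B)` of the ideals such that `h(x) ≤ B` for all `x ∈ U(I)` exists, and tends to one as `B → ∞`.

The input is the number `X ^ (2 / 3 + o(1))` of the `x ∈ K` of all heights with radical at most `X`
(starting files, `Pool.Agent.Y728.mainK`).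
-/

set_option autoImplicit false

namespace Pool.Agent.Results.MP_f5a5f7_nt.RandomSetsOfPrimes

open NumberField IsDedekindDomain Filter Topology

variable {K : Type} [Field K] [NumberField K]

/-- the absolute logarithmic Weil height `h(x)`, as in the problem -/
noncomputable def height (x : K) : ℝ :=
  (1 / (Module.finrank ℚ K : ℝ)) *
    ((∑ w : InfinitePlace K, (w.mult : ℝ) * Real.log (max 1 (w x))) +
      ∑ᶠ v : HeightOneSpectrum (𝓞 K), Real.log (max 1 (FinitePlace.mk v x)))

/-- the conductor `cond(x)`, as in the problem: the sum of `log N(v) / d` over the primes `v` at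
which `x` has a positive valuation -/
noncomputable def cond (x : K) : ℝ :=
  (1 / (Module.finrank ℚ K : ℝ)) *
    (∑ᶠ v : HeightOneSpectrum (𝓞 K),
      (if FinitePlace.mk v x < 1 then Real.log (Ideal.absNorm v.asIdeal : ℝ) else 0))

/-- the weak abc inequality of Q1 for `x`, with the constant `κ` -/
def WeakABC (κ : ℝ) (x : K) : Prop := height x ≤ κ * (cond x + cond x⁻¹ + cond (x - 1) + 1)

/-- the `x ≠ 0, 1` such that `x` and `1 - x` are units at all primes which do not divide `I` -/
def U (I : Ideal (𝓞 K)) : Set K :=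
  {x | x ≠ 0 ∧ x ≠ 1 ∧ ∀ v : HeightOneSpectrum (𝓞 K), ¬ v.asIdeal ∣ I →
    v.valuation K x = 1 ∧ v.valuation K (1 - x) = 1}

/-- the nonzero ideals of norm at most `X` -/
def Ideals (K : Type) [Field K] [NumberField K] (X : ℝ) : Set (Ideal (𝓞 K)) :=
  {I | I ≠ ⊥ ∧ (Ideal.absNorm I : ℝ) ≤ X}

/-- the set `P` of ideals has the density `d` -/
def HasDensity (P : Set (Ideal (𝓞 K))) (d : ℝ) : Prop :=
  Tendsto (fun X : ℝ => ((P ∩ Ideals K X).ncard : ℝ) / (Ideals K X).ncard) atTop (𝓝 d)

section Aux

open Pool.Agent.K3h24.SB Pool.Agent.TH876.Loc Finset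

theorem adm_sp : Adm (fun x : K => sp (-x)) := ⟨∅, fun _ _ _ hv _ => hv⟩

theorem U_eq (I : Ideal (𝓞 K)) : U I = Sol (fun x : K => sp (-x)) I := by
  ext x
  constructor
  · rintro ⟨h0, h1, h2⟩
    have hp := pt_neg h0 h1
    refine ⟨hp, fun v hv => ?_⟩
    have hv' : v ∈ sp (-x) := hv
    rw [mem_rad hp] at hv'
    by_contra hc
    exact hv' (h2 v hc)
  · rintro ⟨hp, h⟩
    obtain ⟨h0, h1⟩ := of_pt_neg hp
    refine ⟨h0, h1, fun v hv => ?_⟩
    by_contra hc
    exact hv (h v ((mem_rad hp v).2 hc))

theorem height_nonneg (x : K) : 0 ≤ height x := by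
  unfold height
  refine mul_nonneg (by positivity) (add_nonneg (Finset.sum_nonneg fun w _ => ?_) ?_)
  · exact mul_nonneg (Nat.cast_nonneg _) (Real.log_nonneg (le_max_left _ _))
  · exact finsum_nonneg fun v => Real.log_nonneg (le_max_left _ _)

theorem cond_nonneg (x : K) : 0 ≤ cond x := by
  unfold cond
  refine mul_nonneg (by positivity) (finsum_nonneg fun v => ?_)
  split_ifs
  · refine Real.log_nonneg ?_
    have := NumberField.HeightOneSpectrum.one_lt_absNorm v
    exact_mod_cast this.le
  · exact le_rfl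

theorem HasDens.mono {P Q : Set (Ideal (𝓞 K))} {a b : ℝ} (hP : HasDens P a) (hQ : HasDens Q b)
    (h : P ⊆ Q) : a ≤ b := by
  refine le_of_tendsto_of_tendsto' hP hQ fun X => ?_
  have h1 : (P ∩ Box K X).ncard ≤ (Q ∩ Box K X).ncard :=
    Set.ncard_le_ncard (Set.inter_subset_inter_left _ h)
      ((box_fin X).subset Set.inter_subset_right)
  have h2 : ((P ∩ Box K X).ncard : ℝ) ≤ (Q ∩ Box K X).ncard := by exact_mod_cast h1
  exact div_le_div_of_nonneg_right h2 (Nat.cast_nonneg _)

theorem dens_univ : HasDens (Set.univ : Set (Ideal (𝓞 K))) 1 := by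
  have h := mult_dens (K := K) ∅
  have e : Mult (K := K) ∅ = Set.univ :=
    Set.eq_univ_of_forall fun I v hv => absurd hv (Finset.notMem_empty v)
  have e2 : (nn (∅ : Finset (Pr K)))⁻¹ = 1 := by unfold nn; simp
  rwa [e, e2] at h

/-- a property of the single solutions which each of them satisfies for large values of a
parameter -/
theorem law_of (A : ℝ → Set K) (hmono : ∀ a b : ℝ, a ≤ b → A a ⊆ A b)
    (hex : ∀ x : K, x ≠ 0 → x ≠ 1 → ∃ a, x ∈ A a) :
    ∃ D : ℝ → ℝ, (∀ a, HasDensity {I : Ideal (𝓞 K) | U I ⊆ A a} (D a)) ∧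
      Tendsto D atTop (𝓝 1) ∧ ∀ a, D a = 1 ↔ ∀ x : K, x ≠ 0 → x ≠ 1 → x ∈ A a := by
  classical
  have hadm := adm_sp (K := K)
  choose D hD using fun a => law hadm {s : Set K | s ⊆ A a}
  have hD' : ∀ a, HasDens {I : Ideal (𝓞 K) | U I ⊆ A a} (D a) := by
    intro a
    have h := hD a
    have e : {I : Ideal (𝓞 K) | Sol (fun x : K => sp (-x)) I ∈ {s : Set K | s ⊆ A a}} =
        {I : Ideal (𝓞 K) | U I ⊆ A a} := by
      ext I
      show Sol (fun x : K => sp (-x)) I ⊆ A a ↔ U I ⊆ A a
      rw [U_eq]
    rwa [e] at h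
  have hle1 : ∀ a, D a ≤ 1 := fun a => HasDens.mono (hD' a) dens_univ (Set.subset_univ _)
  refine ⟨D, hD', ?_, fun a => ⟨fun h1 x h0 hx1 => ?_, fun h => ?_⟩⟩
  · -- the limit
    rw [Metric.tendsto_atTop]
    intro ε hε
    obtain ⟨c₀, hc₀, hlow⟩ := box_low K
    obtain ⟨C, hC, hrare⟩ := rare hadm (1 / 6) (by norm_num)
    obtain ⟨T, hT1, hT⟩ : ∃ T : ℝ, 1 ≤ T ∧ C * T ^ (-(1 / 3 : ℝ) + 1 / 6) ≤ ε / 2 * c₀ := by
      have h1 : Tendsto (fun T : ℝ => C * T ^ (-(1 / 3 : ℝ) + 1 / 6)) atTop (𝓝 (C * 0)) := by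
        refine Tendsto.const_mul C ?_
        have : (-(1 / 3 : ℝ) + 1 / 6) = -(1 / 6) := by norm_num
        rw [this]
        exact tendsto_rpow_neg_atTop (by norm_num)
      rw [mul_zero] at h1
      obtain ⟨N, hN⟩ := eventually_atTop.1 (h1.eventually_lt_const
        (show 0 < ε / 2 * c₀ by positivity))
      exact ⟨max N 1, le_max_right _ _, (hN _ (le_max_left _ _)).le⟩
    obtain ⟨D₁, -, hcnt⟩ := count hadm (1 / 6) (by norm_num)
    set F := (hcnt T hT1).1.toFinset with hF
    -- a parameter which serves the finite set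
    obtain ⟨a₀, ha₀⟩ : ∃ a₀ : ℝ, ∀ x ∈ F, x ∈ A a₀ := by
      have h1 : ∀ G : Finset K, G ⊆ F → ∃ a₀ : ℝ, ∀ x ∈ G, x ∈ A a₀ := by
        intro G
        induction G using Finset.induction_on with
        | empty => exact fun _ => ⟨0, fun x hx => absurd hx (Finset.notMem_empty x)⟩
        | insert y G hy ih =>
          intro hG
          obtain ⟨a₁, h1⟩ := ih ((Finset.subset_insert _ _).trans hG)
          have hyF := hG (Finset.mem_insert_self _ _)
          rw [hF, Set.Finite.mem_toFinset] at hyF
          obtain ⟨k0, k1⟩ := of_pt_neg hyF.1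
          obtain ⟨a₂, h2⟩ := hex y k0 k1
          refine ⟨max a₁ a₂, fun x hx => ?_⟩
          rcases Finset.mem_insert.1 hx with rfl | hx
          · exact hmono _ _ (le_max_right _ _) h2
          · exact hmono _ _ (le_max_left _ _) (h1 x hx)
      exact h1 F (Finset.Subset.refl F)
    refine ⟨a₀, fun a ha => ?_⟩
    rw [Real.dist_eq, abs_sub_comm, abs_of_nonneg (by linarith [hle1 a])]
    have hcomp := (dens_univ (K := K)).diff (hD' a) (Set.subset_univ _)
    have hlim : 1 - D a ≤ ε / 2 := by
      refine le_of_tendsto hcomp ?_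
      filter_upwards [eventually_ge_atTop 1] with X hX
      have hX0 : 0 < X := by linarith
      have hbp := box_pos (K := K) hX
      rw [div_le_iff₀ hbp]
      have hsub : (Set.univ \ {I : Ideal (𝓞 K) | U I ⊆ A a}) ∩ Box K X ⊆
          {I ∈ Box K X | ∃ x ∈ Sol (fun x : K => sp (-x)) I, T < nn (sp (-x))} := by
        rintro I ⟨⟨-, h1⟩, h2⟩
        refine ⟨h2, ?_⟩
        have h3 : ¬ U I ⊆ A a := h1
        rw [Set.not_subset] at h3
        obtain ⟨x, hx, hxa⟩ := h3
        rw [U_eq] at hx
        refine ⟨x, hx, ?_⟩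
        by_contra hc
        refine hxa (hmono _ _ ha (ha₀ x ?_))
        rw [hF, Set.Finite.mem_toFinset]
        exact ⟨hx.1, not_lt.1 hc⟩
      have h3 := Set.ncard_le_ncard hsub ((box_fin X).subset fun I hI => hI.1)
      have h4 := hrare T hT1 X hX0.le
      have h5 : C * X * T ^ (-(1 / 3 : ℝ) + 1 / 6) ≤ ε / 2 * (Box K X).ncard := by
        calc C * X * T ^ (-(1 / 3 : ℝ) + 1 / 6) = C * T ^ (-(1 / 3 : ℝ) + 1 / 6) * X := by ring
          _ ≤ ε / 2 * c₀ * X := mul_le_mul_of_nonneg_right hT hX0.le
          _ = ε / 2 * (c₀ * X) := by ring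
          _ ≤ ε / 2 * (Box K X).ncard := mul_le_mul_of_nonneg_left (hlow X hX) (by positivity)
      exact le_trans (by exact_mod_cast h3) (h4.trans h5)
    linarith
  · -- a violation has positive density
    by_contra hxa
    have hp := pt_neg h0 hx1
    have h2 : HasDens (Mult (sp (-x))) (nn (sp (-x)))⁻¹ := mult_dens _
    have hcomp := (dens_univ (K := K)).diff (hD' a) (Set.subset_univ _)
    have hsub : Mult (sp (-x)) ⊆ Set.univ \ {I : Ideal (𝓞 K) | U I ⊆ A a} := by
      intro I hI
      refine ⟨Set.mem_univ _, fun h3 => hxa (h3 ?_)⟩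
      rw [U_eq]
      exact ⟨hp, hI⟩
    have h3 := HasDens.mono h2 hcomp hsub
    rw [h1, sub_self] at h3
    have := inv_pos.2 (nn_pos (sp (-x)))
    linarith
  · have e : {I : Ideal (𝓞 K) | U I ⊆ A a} = Set.univ :=
      Set.eq_univ_of_forall fun I x hx => h x hx.1 hx.2.1
    have h2 := hD' a
    rw [e] at h2
    exact tendsto_nhds_unique h2 dens_univ

end Aux

/-- **The weak abc inequality for all solutions of the unit equation outside a random ideal.** Let `K`
be a number field.
(1) For every `κ` the ideals `I` such that ALL `x ∈ U(I)` satisfy the weak abc inequality with the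
constant `κ` have a density `D(κ)`; it tends to `1` for `κ → ∞`; and the inequality holds for all
`x ∈ K`, `x ≠ 0, 1`, if and only if `D(κ) = 1`.
(2) For every `B` the ideals `I` such that ALL `x ∈ U(I)` have height at most `B` have a density `H(B)`,
and it tends to `1` for `B → ∞`. -/
theorem result (K : Type) [Field K] [NumberField K] :
    (∃ D : ℝ → ℝ, (∀ κ, HasDensity {I : Ideal (𝓞 K) | ∀ x ∈ U I, WeakABC κ x} (D κ)) ∧
      Tendsto D atTop (𝓝 1) ∧
      ∀ κ, D κ = 1 ↔ ∀ x : K, x ≠ 0 → x ≠ 1 → WeakABC κ x) ∧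
    ∃ H : ℝ → ℝ, (∀ B, HasDensity {I : Ideal (𝓞 K) | ∀ x ∈ U I, height x ≤ B} (H B)) ∧
      Tendsto H atTop (𝓝 1) := by
  refine ⟨?_, ?_⟩
  · exact law_of (fun κ => {x : K | WeakABC κ x}) (fun a b hab x hx => by
      show height x ≤ _
      refine (show height x ≤ _ from hx).trans (mul_le_mul_of_nonneg_right hab ?_)
      have h1 := cond_nonneg x
      have h2 := cond_nonneg x⁻¹
      have h3 := cond_nonneg (x - 1)
      linarith) (fun x _ _ => ⟨height x, by
      show height x ≤ _
      have h1 := cond_nonneg x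
      have h2 := cond_nonneg x⁻¹
      have h3 := cond_nonneg (x - 1)
      have h4 := height_nonneg x
      nlinarith⟩)
  · obtain ⟨D, h1, h2, -⟩ := law_of (fun B => {x : K | height x ≤ B})
      (fun a b hab x hx => by
        show height x ≤ b
        exact le_trans (show height x ≤ a from hx) hab) (fun x _ _ => ⟨height x, by
        show height x ≤ height x
        exact le_rfl⟩)
    exact ⟨D, h1, h2⟩

end Pool.Agent.Results.MP_f5a5f7_nt.RandomSetsOfPrimes
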