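import Mathlib
import Pool.Agent.K3h24.SB.Abs
import Pool.Agent.K3h24.SB.Coef

/-!
# The number and the law of the solutions of the unit equation outside a random ideal

Let `K` be a number field and let `a, b ∈ K` be different from zero. For a nonzero ideal `I` of the
ring of integers let `Sols a b I` be the set of ALL solutions, of whatever height, of the unit equation
`a x + b y = 1` in units `x, y` of `𝓞_K[1 / I]`, the elements of `K` which are units at all primes
which do not divide `I`. The ideals are ordered by their norms.

It is shown that the random set `Sols a b I` converges in total variation to a random finite set: there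
is a probability `μ` on the finite sets of points of the line `a x + b y = 1` such that for EVERY set
`P` of finite sets of points the ideals `I` with `Sols a b I ∈ P` have the density `μ(P)`. The
average number of solutions converges to the mean of the number of elements of the random finite
set, which is finite and equal to the sum of `1 / rad(p)` over all points `p` of the line with
nonzero coordinates; `rad(p)` is the product of the norms of the primes at which one of the
coordinates is not a unit. The convergence of this sum over points of all heights is the input: the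
number of the points with `rad(p) ≤ X` is at most `X ^ (2 / 3 + o(1))` (starting files,
`Pool.Agent.Y728.mainK`).
-/

set_option autoImplicit false

namespace Pool.Agent.Results.MP_f5a5f7_nt.UnitEquationRandomIdeals

open NumberField IsDedekindDomain Filter Topology

variable {K : Type} [Field K] [NumberField K]

/-- the points of the line `a x + b y = 1` with coordinates different from zero -/
def Points (a b : K) : Set (K × K) := {p | a * p.1 + b * p.2 = 1 ∧ p.1 ≠ 0 ∧ p.2 ≠ 0}

/-- the points both coordinates of which are units at all primes which do not divide `I`: the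
solutions of the unit equation -/
def Sols (a b : K) (I : Ideal (𝓞 K)) : Set (Points a b) :=
  {p | ∀ v : HeightOneSpectrum (𝓞 K), ¬ v.asIdeal ∣ I →
    v.valuation K p.1.1 = 1 ∧ v.valuation K p.1.2 = 1}

/-- the product of the norms of the primes at which one of the coordinates is not a unit -/
noncomputable def rad {a b : K} (p : Points a b) : ℝ :=
  ∏ᶠ v ∈ {v : HeightOneSpectrum (𝓞 K) |
    ¬ (v.valuation K p.1.1 = 1 ∧ v.valuation K p.1.2 = 1)}, (Ideal.absNorm v.asIdeal : ℝ)

/-- the nonzero ideals of norm at most `X` -/
def Ideals (K : Type) [Field K] [NumberField K] (X : ℝ) : Set (Ideal (𝓞 K)) :=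
  {I | I ≠ ⊥ ∧ (Ideal.absNorm I : ℝ) ≤ X}

/-- the set `P` of ideals has the density `d` -/
def HasDensity (P : Set (Ideal (𝓞 K))) (d : ℝ) : Prop :=
  Tendsto (fun X : ℝ => ((P ∩ Ideals K X).ncard : ℝ) / (Ideals K X).ncard) atTop (𝓝 d)

section Aux

open Pool.Agent.K3h24.SB Pool.Agent.TH876.Loc Finset

theorem nu_fin {a b : K} (p : Points a b) : (NU (p : K × K)).Finite := NU_fin p.2.2.1 p.2.2.2

/-- the primes of a point -/
noncomputable def sp' {a b : K} (p : Points a b) : Finset (Pr K) := (nu_fin p).toFinset

theorem rad_eq {a b : K} (p : Points a b) : rad p = nn (sp' p) := by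
  have h : rad p = ∏ᶠ v ∈ ((sp' p : Finset (Pr K)) : Set (Pr K)),
      (Ideal.absNorm v.asIdeal : ℝ) := by
    unfold sp' rad
    rw [Set.Finite.coe_toFinset]
    rfl
  rw [h, finprod_mem_coe_finset]
  rfl

theorem sols_eq (a b : K) (I : Ideal (𝓞 K)) : Sols a b I = SS (fun p : Points a b => sp' p) I := by
  ext p
  constructor
  · intro h v hv
    have h2 : v ∈ NU (p : K × K) := (nu_fin p).mem_toFinset.1 hv
    by_contra hc
    exact h2 (h v hc)
  · intro h v hv
    by_contra hc
    exact hv (h v ((nu_fin p).mem_toFinset.2 hc))

/-- the point with parameter `z` -/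
theorem par {a b : K} (ha : a ≠ 0) (hb : b ≠ 0) (p : Points a b) :
    ψ a b (a * (p : K × K).1) = (p : K × K) ∧ Pt (-(a * (p : K × K).1)) := by
  obtain ⟨⟨x, y⟩, h1, h2, h3⟩ := p
  have h1' : a * x + b * y = 1 := h1
  have h2' : x ≠ 0 := h2
  have h3' : y ≠ 0 := h3
  constructor
  · show (a * x / a, (1 - a * x) / b) = (x, y)
    have e1 : a * x / a = x := by field_simp
    have e2 : (1 - a * x) / b = y := by
      rw [← h1']
      field_simp
      ring
    rw [e1, e2]
  · refine pt_neg (mul_ne_zero ha h2') ?_
    intro h
    have h' : a * x = 1 := h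
    rw [h', add_eq_left] at h1'
    exact (mul_ne_zero hb h3') h1'

theorem summ {a b : K} (ha : a ≠ 0) (hb : b ≠ 0) :
    Summable (fun p : Points a b => (nn (sp' p))⁻¹) := by
  classical
  have h0 := (mean (adm_sab ha hb)).1
  have h1 := h0.comp_injective (i := fun p : Points a b =>
    (⟨a * (p : K × K).1, (par ha hb p).2⟩ : {x : K // Pt (-x)})) (fun p q h => by
      have h2 : a * (p : K × K).1 = a * (q : K × K).1 := congrArg Subtype.val h
      apply Subtype.ext
      rw [← (par ha hb p).1, ← (par ha hb q).1, h2])
  refine h1.congr fun p => ?_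
  show (nn (sab a b (a * (p : K × K).1)))⁻¹ = (nn (sp' p))⁻¹
  have h3 : sab a b (a * (p : K × K).1) = sp' p := by
    apply Finset.coe_injective
    rw [coe_sab ha hb (par ha hb p).2, (par ha hb p).1]
    unfold sp'
    rw [Set.Finite.coe_toFinset]
  rw [h3]

end Aux

/-- **The unit equation outside a random ideal.** Let `K` be a number field and `a, b ∈ K` different
from zero. There is a probability `μ` on the finite sets of points of the line `a x + b y = 1` such
that for every set `P` of finite sets of points the ideals `I` such that the set `Sols a b I` of all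
solutions of the unit equation belongs to `P` have the density `μ(P)`. The mean number of solutions
converges to the mean number of elements with respect to `μ`, which is the sum of `1 / rad(p)` over all
points. -/
theorem result (K : Type) [Field K] [NumberField K] (a b : K) (ha : a ≠ 0) (hb : b ≠ 0) :
    ∃ μ : Finset (Points a b) → ℝ, (∀ F, 0 ≤ μ F) ∧ HasSum μ 1 ∧
      (∀ P : Set (Finset (Points a b)),
        HasDensity {I : Ideal (𝓞 K) | ∃ F ∈ P, Sols a b I = (F : Set (Points a b))}
          (∑' F : P, μ F)) ∧
      ∃ m : ℝ, HasSum (fun p : Points a b => (rad p)⁻¹) m ∧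
        HasSum (fun F : Finset (Points a b) => (F.card : ℝ) * μ F) m ∧
        Tendsto (fun X : ℝ => (∑ᶠ I ∈ Ideals K X, ((Sols a b I).ncard : ℝ)) /
          (Ideals K X).ncard) atTop (𝓝 m) := by
  have hs := summ ha hb
  obtain ⟨μ, h0, h1, h2, h3⟩ := Pool.Agent.K3h24.SB.ss_limit hs
  have hmean := Pool.Agent.K3h24.SB.ss_mean hs
  refine ⟨μ, h0, h1, fun P => ?_, _, ?_, h3, ?_⟩
  · have h4 := h2 P
    have e : {I : Ideal (𝓞 K) | ∃ F ∈ P, Sols a b I = (F : Set (Points a b))} =
        {I : Ideal (𝓞 K) | ∃ F ∈ P, Pool.Agent.K3h24.SB.SS (fun p : Points a b => sp' p) I =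
          (F : Set (Points a b))} := by
      ext I
      rw [Set.mem_ofPred_eq, Set.mem_ofPred_eq, sols_eq]
    rw [e]
    exact h4
  · have e : (fun p : Points a b => (rad p)⁻¹) =
        fun p : Points a b => (Pool.Agent.TH876.Loc.nn (sp' p))⁻¹ := by
      funext p
      rw [rad_eq]
    rw [e]
    exact hs.hasSum
  · refine hmean.congr fun X => ?_
    have e3 : Ideals K X =
        ((Pool.Agent.K3h24.SB.box_fin (K := K) X).toFinset : Set (Ideal (𝓞 K))) := by
      rw [Set.Finite.coe_toFinset]
      rfl
    have e4 : ∑ᶠ I ∈ Ideals K X, ((Sols a b I).ncard : ℝ) =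
        ∑ I ∈ (Pool.Agent.K3h24.SB.box_fin (K := K) X).toFinset,
          ((Pool.Agent.K3h24.SB.SS (fun p : Points a b => sp' p) I).ncard : ℝ) := by
      rw [e3, finsum_mem_coe_finset]
      refine Finset.sum_congr rfl fun I _ => ?_
      rw [sols_eq]
    rw [e4]
    rfl

end Pool.Agent.Results.MP_f5a5f7_nt.UnitEquationRandomIdeals
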